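import Pool.Agent.H90.VK.KER
import Pool.Agent.H90.VK.SNG
import Pool.Agent.H90.VK.EXA
import Pool.Agent.H90.VK.NecCond

/-!
# MP_62a01d_an : extreme points of Paatero's class `V_k`, `2 < k < 4`

Definitions: `Pool/Agent/H90/VK/Defs.lean` (`InV`, `IsExtreme`, `PRep`, `Lg`, `OnCircle`, `arcLen`, `potInf`,
`NonPolar`, `atoms`), `SUB.lean` (`ArcCond`), `NecCond.lean` (`NecCond`), `CHD.lean` (`ChordData`).
-/

open MeasureTheory Set Metric
open Pool.H90.VK
open scoped Real ComplexConjugate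

namespace Pool.Agent.Results.MP_62a01d_an.ExtremePoints

theorem result (k : ℝ) (hk2 : 2 < k) (hk4 : k < 4) :
    -- Paatero's representation by two mutually singular measures on the circle
    (∀ f : ℂ → ℂ, InV k f → ∃ β α : Measure ℂ, PRep k f β α ∧ β ⟂ₘ α) ∧
    (∀ (f : ℂ → ℂ) (β α : Measure ℂ), InV k f → PRep k f β α →
      -- the conditions `NecCond` are necessary
      (IsExtreme k f → NecCond k β α) ∧
      -- and they characterise the extreme points in the following range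
      (NonPolar (β.restrict (atoms β)ᶜ) → NonPolar (α.restrict (atoms α)ᶜ) →
        (β.real (atoms β) + α.real (atoms α) < 2 ∨ (atoms α).Subsingleton ∨ ArcCond β α) →
        (IsExtreme k f ↔ NecCond k β α)) ∧
      -- outside of this range they are not sufficient
      (∀ (y : ℂ) (φ₁ ψ φ₂ κ₁ κ₂ : ℝ), ‖y‖ = 1 → ChordData φ₁ ψ φ₂ κ₁ κ₂ →
        κ₁ ≤ α.real {y * Complex.exp (φ₁ * Complex.I)} →
        κ₂ ≤ α.real {y * Complex.exp (φ₂ * Complex.I)} →
        2 ≤ β.real {y} + κ₁ + κ₂ → ¬ IsExtreme k f)) ∧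
    -- in particular all kernel functions are extreme points
    (∀ (x y : ℂ) (f : ℂ → ℂ), ‖x‖ = 1 → ‖y‖ = 1 → x ≠ y →
      DifferentiableOn ℂ f (ball (0 : ℂ) 1) → f 0 = 0 →
      (∀ z ∈ ball (0 : ℂ) 1, deriv f z = Complex.exp (((k / 2 - 1 : ℝ) : ℂ) *
        Complex.log (1 - conj x * z) - ((k / 2 + 1 : ℝ) : ℂ) * Complex.log (1 - conj y * z))) →
      IsExtreme k f) := by
  refine ⟨fun f hf => PAA hf, fun f β α hf h => ⟨?_, ?_, ?_⟩, ?_⟩
  · intro he
    obtain ⟨h1, h2, h3, h4, h5⟩ := NEC h he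
    exact ⟨h1, h2, h3, h4, h5⟩
  · intro n1 n2 hc
    constructor
    · intro he
      obtain ⟨h1, h2, h3, h4, h5⟩ := NEC h he
      exact ⟨h1, h2, h3, h4, h5⟩
    · intro hn
      exact SUF hk2 hk4 hf h hn.mass hn.sing hn.singβ hn.singα hn.atom n1 n2 hc
  · intro y φ₁ ψ φ₂ κ₁ κ₂ hy hc a1 a2 hm
    exact CHX hf h hy hc a1 a2 hm
  · intro x y f hx hy hxy hd h0 hf
    exact KER hk2 hk4 hd h0 hx hy hxy hf

end Pool.Agent.Results.MP_62a01d_an.ExtremePoints
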